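import Mathlib
import Pool.Agent.H384R2.Fatou
import Pool.Agent.TH224.SC.Defs
import Pool.Agent.TH224.SC.Inner

/-!
# Multiply connected wandering domains without singleton complementary components

Q2 of the problem asks whether a multiply connected wandering domain with infinite inner
connectivity must have a singleton complementary component (indeed uncountably many).  The answer
is no: there is a transcendental entire function `f` with a multiply connected wandering domain `U`
of infinite inner connectivity none of whose complementary components is a single point.

The function is a limit of polynomials `F_{m+1} = F_m (1 + L_m^{j_m})`, where `L_m` is a polynomial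
whose lemniscate `{|L_m| ≤ 4}` consists of two pieces inside `{|z| < s_m}`, each of which contains a
spiral that winds `(deg F_m)^m` times very close to the circle `|z| = s_m`.  Every component of
`{|f^{m+1}| ≤ s_{m+1}}` contains a lift, under `f^m`, of one of these spirals, and such a lift comes
very close to every point of the rim of the component of `{|f^m| ≤ s_m}` in which it lies; so the
sizes of the nested components decrease by a factor `1 - 2^{-m-2}` at most.
-/

set_option autoImplicit false

namespace Pool.Agent.Results.MP_571b65_an.NoSingletonHoles

open Set Pool.Agent.H384R2.Fatou Pool.Agent.TH224.SC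

/-- **Q2 has a negative answer.** There are a transcendental entire function `f` and a Fatou
component `U` of `f` which is a bounded, multiply connected wandering domain (with `f^n(U)` a Fatou
component for every `n`), has infinite inner connectivity, and has no singleton complementary
component. -/
theorem result : ∃ (f : ℂ → ℂ) (U : Set ℂ),
    TransEntire f ∧
    (∃ p ∈ FatouSet f, U = FatouComponent f p) ∧
    IsWanderingDomain f U ∧
    Bornology.IsBounded U ∧
    (∀ n : ℕ, ∃ p ∈ FatouSet f, f^[n] '' U = FatouComponent f p) ∧
    (∃ x ∈ Uᶜ, Bornology.IsBounded (connectedComponentIn Uᶜ x)) ∧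
    InfInner f U ∧
    ∀ x ∈ Uᶜ, (connectedComponentIn Uᶜ x).Nontrivial := by
  obtain ⟨f, r, s, R', h⟩ := exists_sys
  refine ⟨f, Sys.U f s 0, h.trans, ⟨_, h.pt_F 0, rfl⟩, h.wandering, ?_, ?_, ⟨0, h.mult⟩,
    h.infInner, ?_⟩
  · apply (Metric.isBounded_ball (x := (0 : ℂ)) (r := s 1 + 1)).subset
    intro z hz
    rw [mem_ball_zero_iff]
    exact h.U_bdd 0 z hz
  · intro n
    exact ⟨_, h.pt_F n, h.U_iter n⟩
  · intro x hx
    have h1 := h.no_single hx
    by_contra h2
    rw [Set.not_nontrivial_iff] at h2
    apply h1
    exact h2.eq_singleton_of_mem (mem_connectedComponentIn hx)

end Pool.Agent.Results.MP_571b65_an.NoSingletonHoles
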